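import Pool.Agent.helper85.AQ.SpecB
import Pool.Agent.helper35.TD.CONJ

/-! # Project aq, row BIL: lifting inertia -/

set_option autoImplicit false

namespace Pool.Agent.AQ

open Polynomial Pool.Agent.HC Pool.Agent.HC.SJ Pool.Agent.SJ Pool.Agent.GJ Pool.Agent.TK Pool.Agent.CM
open Pool.Agent.TQJ Pool.Agent.TQG
open Pool.Agent.FJ (VT Om chiO rf rs IsFrobO)
open Pool.Agent.TD (zK DvK bC mK IsPhiK Stab)
open scoped TensorProduct NumberField Pointwise

noncomputable section

theorem BIL_rs0 {K : Type} [Field K] (O : ValuationSubring K) (x : K) :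
    (∃ y : O, (y : K) = x ∧ rs O y = 0) ↔ x ∈ O.nonunits := by
  constructor
  · rintro ⟨y, rfl, hy⟩
    rw [ValuationSubring.coe_mem_nonunits_iff]
    exact (IsLocalRing.residue_eq_zero_iff y).1 hy
  · intro h
    have hx : x ∈ O := O.nonunits_subset h
    refine ⟨⟨x, hx⟩, rfl, ?_⟩
    refine (IsLocalRing.residue_eq_zero_iff _).2 ?_
    exact (ValuationSubring.coe_mem_nonunits_iff (a := (⟨x, hx⟩ : O))).1 h

theorem BIL_int {K : Type} [Field K] (R : Subring K) (σ : K ≃+* K) (hσ : ∀ r, r ∈ R → σ r ∈ R) (b : K)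
    (hb : IsIntegral R b) : IsIntegral R (σ b) := by
  let s : R →+* R := ((σ : K →+* K).comp R.subtype).codRestrict R (fun r => hσ r r.2)
  obtain ⟨p, hp, hp0⟩ := hb
  refine ⟨p.map s, hp.map s, ?_⟩
  have h1 := congrArg (σ : K →+* K) hp0
  rw [Polynomial.hom_eval₂, map_zero] at h1
  rw [Polynomial.eval₂_map]
  exact h1

theorem BIL_main {k K : Type} [Field k] [CharZero k] [Field K] [IsAlgClosed K] [Algebra k K]
    [Algebra.IsAlgebraic k K] (O : ValuationSubring K) (R : Subring K)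
    (hR : R = (O.toSubring.comap (algebraMap k K)).map (algebraMap k K)) (τ : K ≃+* K)
    (hτ : ∀ x, x ∈ O ↔ τ x ∈ O) (hτR : ∀ r, r ∈ R ↔ τ r ∈ R) (hτi : ∀ r ∈ R, τ r - r ∈ O.nonunits) :
    ∃ γ : K ≃ₐ[k] K, (∀ b : K, IsIntegral R b → (b ∈ O.nonunits ↔ γ b ∈ O.nonunits)) ∧
      ∀ b : K, IsIntegral R b → γ b - τ b ∈ O.nonunits := by
  have : IsAlgClosure k K := ⟨inferInstance, inferInstance⟩
  have : Normal k K := IsAlgClosure.normal k K
  have : IsGalois k K := ⟨⟩
  have hRO : R ≤ O.toSubring := by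
    rw [hR]
    rintro _ ⟨c, hc, rfl⟩
    exact hc
  have hRk : ∀ r : R, ∃ c : k, algebraMap k K c = (r : K) := by
    rintro ⟨r, hr⟩
    rw [hR] at hr
    obtain ⟨c, _, hc⟩ := hr
    exact ⟨c, hc⟩
  have : SMulCommClass (K ≃ₐ[k] K) R K := ⟨fun g r x => by
    obtain ⟨c, hc⟩ := hRk r
    change g ((r : K) * x) = (r : K) * g x
    rw [map_mul, ← hc, AlgEquiv.commutes]⟩
  let B := integralClosure R K
  let : TopologicalSpace B := ⊥
  have : DiscreteTopology B := ⟨rfl⟩
  have : ContinuousSMul (K ≃ₐ[k] K) B := by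
    rw [continuousSMul_iff_stabilizer_isOpen]
    intro b
    have h1 := stabilizer_isOpen_of_isIntegral (K := k) (b : K)
    have h2 : MulAction.stabilizer (K ≃ₐ[k] K) b = MulAction.stabilizer (K ≃ₐ[k] K) (b : K) := by
      ext g
      rw [MulAction.mem_stabilizer_iff, MulAction.mem_stabilizer_iff, Subtype.ext_iff]
      rfl
    rw [h2]
    exact h1
  have hBO : ∀ b : B, (b : K) ∈ O := fun b => (TD.CONJ_int_iff R b.1).1 b.2 O hRO
  have : Algebra.IsInvariant R B (K ≃ₐ[k] K) := by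
    refine ⟨fun b hb => ?_⟩
    have h1 : (b : K) ∈ Set.range (algebraMap k K) := by
      rw [InfiniteGalois.mem_range_algebraMap_iff_fixed]
      intro g
      exact congrArg Subtype.val (hb g)
    obtain ⟨c, hc⟩ := h1
    have hcO : algebraMap k K c ∈ O := by
      rw [hc]
      exact hBO b
    have hm : algebraMap k K c ∈ R := hR.ge (Subring.mem_map.2 ⟨c, hcO, rfl⟩)
    have hm' : (b : K) ∈ R := by
      rw [hc] at hm
      exact hm
    exact ⟨⟨(b : K), hm'⟩, Subtype.ext rfl⟩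
  let f : B →+* O := (B.val.toRingHom).codRestrict O.toSubring hBO
  let Q : Ideal B := (IsLocalRing.maximalIdeal O).comap f
  have hQ : ∀ b : B, b ∈ Q ↔ (b : K) ∈ O.nonunits := fun b =>
    (ValuationSubring.coe_mem_nonunits_iff (a := f b)).symm
  have : Q.IsPrime := Ideal.comap_isPrime _ _
  let P : Ideal R := Q.under R
  have : Q.LiesOver P := ⟨rfl⟩
  -- the automorphism of `B`
  have hτR' : ∀ r, r ∈ R → τ.symm r ∈ R := fun r hr => by
    rw [hτR, RingEquiv.apply_symm_apply]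
    exact hr
  let t : B ≃+* B :=
    { toFun := fun b => ⟨τ b, BIL_int R τ (fun r hr => (hτR r).1 hr) b b.2⟩
      invFun := fun b => ⟨τ.symm b, BIL_int R τ.symm hτR' b b.2⟩
      left_inv := fun b => Subtype.ext (τ.symm_apply_apply b)
      right_inv := fun b => Subtype.ext (τ.apply_symm_apply b)
      map_mul' := fun a b => Subtype.ext (map_mul τ (a : K) (b : K))
      map_add' := fun a b => Subtype.ext (map_add τ (a : K) (b : K)) }
  have hnu : ∀ x : K, x ∈ O.nonunits ↔ τ x ∈ O.nonunits := by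
    intro x
    rw [ValuationSubring.mem_nonunits_iff_or, ValuationSubring.mem_nonunits_iff_or, ← map_inv₀, ← hτ, map_eq_zero_iff τ τ.injective]
  have hQt : Q = Q.map (t : B →+* B) := by
    refine le_antisymm ?_ ?_
    · intro b hb
      have h1 : t.symm b ∈ Q := by
        rw [hQ, hnu]
        change τ (τ.symm (b : K)) ∈ O.nonunits
        rw [RingEquiv.apply_symm_apply]
        exact (hQ b).1 hb
      have h2 := Ideal.mem_map_of_mem (t : B →+* B) h1
      have h3 : (t : B →+* B) (t.symm b) = b := t.apply_symm_apply b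
      rwa [h3] at h2
    · rw [Ideal.map_le_iff_le_comap]
      intro b hb
      rw [Ideal.mem_comap, hQ]
      change τ (b : K) ∈ O.nonunits
      rw [← hnu]
      exact (hQ b).1 hb
  let σ0 : (B ⧸ Q) ≃+* (B ⧸ Q) := Ideal.quotientEquiv Q Q t hQt
  let σ : (B ⧸ Q) ≃ₐ[R ⧸ P] (B ⧸ Q) := AlgEquiv.ofRingEquiv (f := σ0) (fun x => by
    obtain ⟨r, rfl⟩ := Ideal.Quotient.mk_surjective x
    change Ideal.Quotient.mk Q (t (algebraMap R B r)) = Ideal.Quotient.mk Q (algebraMap R B r)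
    rw [Ideal.Quotient.eq, hQ]
    exact hτi r r.2)
  obtain ⟨g, hg⟩ := Ideal.Quotient.stabilizerHom_surjective_of_profinite (G := K ≃ₐ[k] K) P Q σ
  refine ⟨g.1, fun b hb => ?_, fun b hb => ?_⟩
  · have h1 : g.1 • Q = Q := g.2
    have h2 := Ideal.smul_mem_pointwise_smul_iff (a := g.1) (S := Q) (x := (⟨b, hb⟩ : B))
    rw [h1, hQ, hQ] at h2
    exact h2.symm
  · have h1 := congrArg (fun s : (B ⧸ Q) ≃ₐ[R ⧸ P] (B ⧸ Q) => s (Ideal.Quotient.mk Q ⟨b, hb⟩)) hg
    have h2 : Ideal.Quotient.mk Q (g.1 • (⟨b, hb⟩ : B)) = Ideal.Quotient.mk Q (t ⟨b, hb⟩) := h1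
    rw [Ideal.Quotient.eq, hQ] at h2
    exact h2

theorem BIL (hCONJ : TD.CONJ_stmt) : BIL_stmt := by
  intro O L _ _ τ0 h0
  have h1 : ∀ x : L, ((x : L) : Om) ∈ O → ((τ0 x : L) : Om) - ((x : L) : Om) ∈ O.nonunits := fun x hx =>
    (BIL_rs0 O _).1 (h0 x hx)
  have hO : ∀ x : L, ((x : L) : Om) ∈ O → ((τ0 x : L) : Om) ∈ O := by
    intro x hx
    have h2 := O.add_mem _ _ (O.nonunits_subset (h1 x hx)) hx
    rwa [sub_add_cancel] at h2
  have hnu : ∀ x : L, ((x : L) : Om) ∈ O.nonunits → ((τ0 x : L) : Om) ∈ O.nonunits := by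
    intro x hx
    have h2 := h1 x (O.nonunits_subset hx)
    rw [ValuationSubring.mem_nonunits_iff] at h2 hx ⊢
    have h3 := Valuation.map_add_lt _ h2 hx
    rwa [sub_add_cancel] at h3
  have hO' : ∀ x : L, ((τ0 x : L) : Om) ∈ O → ((x : L) : Om) ∈ O := by
    intro x hx
    by_contra hc
    have h2 : ((x⁻¹ : L) : Om) ∈ O.nonunits := by
      rw [ValuationSubring.mem_nonunits_iff_or]
      right
      rw [← IntermediateField.coe_inv, inv_inv]
      exact hc
    have h3 := hnu _ h2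
    rw [ValuationSubring.mem_nonunits_iff_or] at h3
    rcases h3 with h3 | h3
    · have h4 : x = 0 := by
        have h5 : τ0 x⁻¹ = 0 := by
          apply Subtype.ext
          exact h3
        rw [map_eq_zero_iff τ0 τ0.injective, inv_eq_zero] at h5
        exact h5
      apply hc
      rw [h4]
      exact O.zero_mem
    · apply h3
      rw [← IntermediateField.coe_inv, ← map_inv₀, inv_inv]
      exact hx
  -- the extension to `Om`
  have halg : Algebra.IsAlgebraic ℚ Om := AlgebraicClosure.isAlgebraic ℚ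
  have : IsAlgClosure ℚ Om := ⟨inferInstance, halg⟩
  have : Normal ℚ Om := IsAlgClosure.normal ℚ Om
  have : Algebra.IsAlgebraic L Om := Algebra.IsAlgebraic.tower_top (K := ℚ) L
  let τ1 : Om ≃ₐ[ℚ] Om := τ0.liftNormal Om
  have hτ1 : ∀ x : L, τ1 ((x : L) : Om) = ((τ0 x : L) : Om) := fun x => τ0.liftNormal_commutes Om x
  have hτ1' : ∀ x : L, τ1.symm ((x : L) : Om) = ((τ0.symm x : L) : Om) := fun x => by
    rw [AlgEquiv.symm_apply_eq, hτ1, AlgEquiv.apply_symm_apply]
  let O1 : ValuationSubring Om := O.comap (τ1.symm : Om →+* Om)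
  obtain ⟨γ, hγ⟩ := hCONJ L Om O1 O (fun x => by
    change τ1.symm ((x : L) : Om) ∈ O ↔ ((x : L) : Om) ∈ O
    rw [hτ1']
    constructor
    · intro h
      have h2 := hO _ h
      rwa [AlgEquiv.apply_symm_apply] at h2
    · intro h
      apply hO'
      rwa [AlgEquiv.apply_symm_apply])
  let τ2 : Om ≃+* Om := (τ1 : Om ≃+* Om).trans (γ : Om ≃+* Om)
  have hτ2 : ∀ x : L, τ2 ((x : L) : Om) = ((τ0 x : L) : Om) := fun x => by
    change γ (τ1 ((x : L) : Om)) = _
    rw [hτ1]
    exact γ.commutes (τ0 x)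
  have hstab : ∀ x, x ∈ O ↔ τ2 x ∈ O := by
    intro x
    change _ ↔ γ (τ1 x) ∈ O
    rw [← hγ]
    change _ ↔ τ1.symm (τ1 x) ∈ O
    rw [AlgEquiv.symm_apply_apply]
  set R : Subring Om := (O.toSubring.comap (algebraMap L Om)).map (algebraMap L Om) with hR
  have hmem : ∀ r : Om, r ∈ R ↔ ∃ c : L, ((c : L) : Om) ∈ O ∧ ((c : L) : Om) = r := by
    intro r
    rw [hR, Subring.mem_map]
    rfl
  obtain ⟨g, hg1, hg2⟩ := BIL_main (k := L) O R hR τ2 hstab (fun r => by
      rw [hmem, hmem]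
      constructor
      · rintro ⟨c, hc, rfl⟩
        exact ⟨τ0 c, hO c hc, (hτ2 c).symm⟩
      · rintro ⟨c, hc, hcr⟩
        refine ⟨τ0.symm c, hO' _ (by rwa [AlgEquiv.apply_symm_apply]), ?_⟩
        apply τ2.injective
        rw [hτ2, AlgEquiv.apply_symm_apply, hcr]) (fun r hr => by
      obtain ⟨c, hc, rfl⟩ := (hmem r).1 hr
      rw [hτ2]
      exact h1 c hc)
  have hRτ : ∀ r, r ∈ R → τ2 r ∈ R := by
    intro r hr
    rw [hmem] at hr ⊢
    obtain ⟨c, hc, rfl⟩ := hr
    exact ⟨τ0 c, hO c hc, (hτ2 c).symm⟩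
  let τ : Om ≃+* Om := τ2.trans (g.symm : Om ≃+* Om)
  have hτg : ∀ x, g (τ x) = τ2 x := fun x => by
    change g (g.symm (τ2 x)) = _
    rw [AlgEquiv.apply_symm_apply]
  have hval : ∀ x, x ∈ O.nonunits ↔ O.valuation x < 1 := fun x => ValuationSubring.mem_nonunits_iff O
  have hRO : R ≤ O.toSubring := by
    intro r hr
    obtain ⟨c, hc, rfl⟩ := (hmem r).1 hr
    exact hc
  -- integral elements
  have hτint : ∀ b, IsIntegral R b → IsIntegral R (τ b) := fun b hb =>
    TD.CONJ_map g.symm _ (BIL_int R τ2 hRτ b hb)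
  have hτb : ∀ b, IsIntegral R b → τ b - b ∈ O.nonunits := by
    intro b hb
    have h2 : IsIntegral R (τ b - b) := (hτint b hb).sub hb
    rw [hg1 _ h2, map_sub, hτg]
    have h3 := hg2 b hb
    rw [hval] at h3 ⊢
    rwa [Valuation.map_sub_swap]
  have hIO : ∀ b, IsIntegral R b → b ∈ O := fun b hb => (TD.CONJ_int_iff R b).1 hb O hRO
  -- all elements of `O`
  have key : ∀ x ∈ O, τ x ∈ O ∧ τ x - x ∈ O.nonunits := by
    intro x hx
    obtain ⟨v, hv, hvi, hxv⟩ := TD.CONJ_uv (k := L) O x hx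
    have h2 := hτb v hvi
    have h3 : τ v ∉ O.nonunits := by
      intro h4
      apply hv
      rw [hval] at h2 h4 ⊢
      have h5 := Valuation.map_sub_lt O.valuation h4 h2
      rwa [sub_sub_cancel] at h5
    have h4 : (τ v)⁻¹ ∈ O := by
      by_contra h5
      exact h3 ((ValuationSubring.mem_nonunits_iff_or _).2 (Or.inr h5))
    have h5 : τ v ≠ 0 := fun h6 => h3 ((ValuationSubring.mem_nonunits_iff_or _).2 (Or.inl h6))
    have h6 : τ x = τ (x * v) * (τ v)⁻¹ := by
      rw [map_mul, mul_assoc, mul_inv_cancel₀ h5, mul_one]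
    have h7 : τ x - x = (τ (x * v) - x * v - x * (τ v - v)) * (τ v)⁻¹ := by
      rw [map_mul]
      field_simp
      ring
    refine ⟨?_, ?_⟩
    · rw [h6]
      exact O.mul_mem _ _ (hIO _ (hτint _ hxv)) h4
    · rw [h7, hval, map_mul]
      have h8 : O.valuation (τ (x * v) - x * v - x * (τ v - v)) < 1 := by
        refine Valuation.map_sub_lt _ ((hval _).1 (hτb _ hxv)) ?_
        rw [map_mul]
        have h9 : O.valuation x ≤ 1 := (ValuationSubring.valuation_le_one_iff O x).2 hx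
        exact mul_lt_one_of_nonneg_of_lt_one_right h9 zero_le ((hval _).1 h2)
      exact mul_lt_one_of_nonneg_of_lt_one_left zero_le h8 ((ValuationSubring.valuation_le_one_iff O _).2 h4)
  refine ⟨τ, fun x => ?_, fun x => ⟨fun hx => (key x hx).1, fun hx => ?_⟩, fun y z hyz => ?_⟩
  · change g.symm (τ2 ((x : L) : Om)) = _
    rw [hτ2]
    exact g.symm.commutes (τ0 x)
  · by_contra hc
    have h2 : x⁻¹ ∈ O.nonunits := by
      rw [ValuationSubring.mem_nonunits_iff_or]
      right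
      rwa [inv_inv]
    have h3 := (key _ (O.nonunits_subset h2)).2
    have h4 : τ x⁻¹ ∈ O.nonunits := by
      rw [hval] at h2 h3 ⊢
      have h5 := Valuation.map_add_lt _ h3 h2
      rwa [sub_add_cancel] at h5
    have hx0 : x ≠ 0 := by
      rintro rfl
      exact hc O.zero_mem
    have h5 : τ x * τ x⁻¹ = 1 := by
      rw [← map_mul, mul_inv_cancel₀ hx0, map_one]
    have h6 : O.valuation (τ x * τ x⁻¹) < 1 := by
      rw [map_mul]
      exact mul_lt_one_of_nonneg_of_lt_one_right ((ValuationSubring.valuation_le_one_iff O _).2 hx) zero_le ((hval _).1 h4)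
    rw [h5, map_one] at h6
    exact lt_irrefl _ h6
  · have h2 := (key (y : Om) y.2).2
    rw [hyz] at h2
    obtain ⟨w, hw, hw0⟩ := (BIL_rs0 O _).2 h2
    have h3 : w = z - y := Subtype.ext hw
    rw [h3, map_sub, sub_eq_zero] at hw0
    exact hw0

end

end Pool.Agent.AQ
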